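import Pool.Agent.R745.CDN.Defs

/-! # W: the twin case for alphabets of 8, 9, 10, 11 letters (piece of MP_990a44_co) -/

set_option autoImplicit false

namespace R745CD

open Finset H825CD

namespace Wp

theorem key {q Q m k l K L aj bj zj wj ai bi zi wi r Z11 : ℝ} (hq : 0 < q) (hQ : 2 ≤ Q)
    (hQ1 : 16 * Q ≤ 7 * q) (hQ2 : 7 * Q ≤ 3 * q + 1)
    (hm : q * m ≤ 1) (hm0 : 0 < m) (hk : 1 ≤ k) (hl : 1 ≤ l) (hkl : k + l ≤ Q)
    (hK : 1 ≤ K) (hL : 1 ≤ L) (hKL : K + L ≤ Q)
    (haj0 : 0 < aj) (hbj0 : 0 < bj) (hai0 : 0 < ai) (hbi0 : 0 < bi)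
    (haj2 : aj ≤ 1 / 2) (hbj2 : bj ≤ 1 / 2) (hai2 : ai ≤ 1 / 2) (hbi2 : bi ≤ 1 / 2)
    (haj : aj ≤ k * zj) (hbj : bj ≤ l * wj) (hai : ai ≤ K * zi) (hbi : bi ≤ L * wi)
    (hJ1 : zj * (1 - bj + wj) ≤ m) (hJ2 : wj * (1 - aj + zj) ≤ m)
    (hJ3 : Q * m < aj + bj - aj * bj) (hI1 : zi * (1 - bi) ≤ m) (hI2 : wi * (1 - ai) ≤ m)
    (hr : 1 - bj - bi ≤ r) (hz : zj ≤ K * Z11) (hrz : q * (r * Z11) ≤ m) : False := by
  have hzj : 0 < zj := by
    have : 0 < k * zj := lt_of_lt_of_le haj0 haj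
    exact (pos_iff_pos_of_mul_pos this).1 (by linarith)
  have hwj : 0 < wj := by
    have : 0 < l * wj := lt_of_lt_of_le hbj0 hbj
    exact (pos_iff_pos_of_mul_pos this).1 (by linarith)
  have hzw : 0 < zj * wj := mul_pos hzj hwj
  have hJ1' : zj * (1 - bj) ≤ m := by
    have f1 : zj * (1 - bj + wj) = zj * (1 - bj) + zj * wj := by ring
    linarith
  have hJ2' : wj * (1 - aj) ≤ m := by
    have f1 : wj * (1 - aj + zj) = wj * (1 - aj) + zj * wj := by ring
    linarith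
  have hcm : ∀ c : ℝ, 1 ≤ c → q * (c * m) ≤ c := fun c hc => by
    have f1 : c * (q * m) ≤ c * 1 := mul_le_mul_of_nonneg_left hm (by linarith)
    have f2 : q * (c * m) = c * (q * m) := by ring
    linarith
  have hzm : m < zj := by
    have e1 : bj * (1 - aj) ≤ l * m := by
      calc bj * (1 - aj) ≤ (l * wj) * (1 - aj) := mul_le_mul_of_nonneg_right hbj (by linarith)
        _ = l * (wj * (1 - aj)) := by ring
        _ ≤ l * m := mul_le_mul_of_nonneg_left hJ2' (by linarith)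
    have e1' : bj * (1 - aj) = bj - aj * bj := by ring
    have e2 : Q * m < k * zj + l * m := by linarith
    have e3 : k * m ≤ (Q - l) * m := mul_le_mul_of_nonneg_right (by linarith) hm0.le
    have e3' : (Q - l) * m = Q * m - l * m := by ring
    have e4 : k * m < k * zj := by linarith
    exact lt_of_mul_lt_mul_left e4 (by linarith)
  -- bound of bj
  have hmq : m ≤ 1 / q := by rw [le_div_iff₀ hq]; linarith
  have hbj37 : bj ≤ 3 / 7 := by
    have e1 : aj * (1 - bj) ≤ k * m := by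
      calc aj * (1 - bj) ≤ (k * zj) * (1 - bj) := mul_le_mul_of_nonneg_right haj (by linarith)
        _ = k * (zj * (1 - bj)) := by ring
        _ ≤ k * m := mul_le_mul_of_nonneg_left hJ1' (by linarith)
    have e2 : aj ≤ 2 * (k * m) := by
      have f1 : aj * (1 / 2) ≤ aj * (1 - bj) := mul_le_mul_of_nonneg_left (by linarith) haj0.le
      linarith
    have e3 : bj * (1 - aj) ≤ l * m := by
      calc bj * (1 - aj) ≤ (l * wj) * (1 - aj) := mul_le_mul_of_nonneg_right hbj (by linarith)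
        _ = l * (wj * (1 - aj)) := by ring
        _ ≤ l * m := mul_le_mul_of_nonneg_left hJ2' (by linarith)
    have e4 : q * (k * m) ≤ k := hcm k hk
    have e5 : q * (l * m) ≤ l := hcm l hl
    have e6 : bj * (q - 2 * k) ≤ l := by
      have f1 : q * aj ≤ 2 * k := by
        have f5 : q * aj ≤ q * (2 * (k * m)) := mul_le_mul_of_nonneg_left e2 hq.le
        have f6 : q * (2 * (k * m)) = 2 * (q * (k * m)) := by ring
        linarith
      have f2 : bj * (q - 2 * k) ≤ bj * (q - q * aj) :=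
        mul_le_mul_of_nonneg_left (by linarith) hbj0.le
      have f3 : bj * (q - q * aj) = q * (bj * (1 - aj)) := by ring
      have f4 : q * (bj * (1 - aj)) ≤ q * (l * m) := mul_le_mul_of_nonneg_left e3 hq.le
      linarith
    have e7 : bj * (q - 2 * (Q - l)) ≤ l := by
      have f1 : bj * (q - 2 * (Q - l)) ≤ bj * (q - 2 * k) :=
        mul_le_mul_of_nonneg_left (by linarith) hbj0.le
      linarith
    by_contra hcon
    push Not at hcon
    have e8 : 3 / 7 * (q - 2 * (Q - l)) ≤ bj * (q - 2 * (Q - l)) :=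
      mul_le_mul_of_nonneg_right hcon.le (by linarith)
    have e9 : 3 / 7 * (q - 2 * (Q - l)) < bj * (q - 2 * (Q - l)) :=
      mul_lt_mul_of_pos_right hcon (by linarith)
    linarith
  -- bound of bi
  have g1 : q * (ai * (1 - bi)) ≤ K := by
    have e1 : ai * (1 - bi) ≤ K * m := by
      calc ai * (1 - bi) ≤ (K * zi) * (1 - bi) := mul_le_mul_of_nonneg_right hai (by linarith)
        _ = K * (zi * (1 - bi)) := by ring
        _ ≤ K * m := mul_le_mul_of_nonneg_left hI1 (by linarith)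
    have e2 : q * (ai * (1 - bi)) ≤ q * (K * m) := mul_le_mul_of_nonneg_left e1 hq.le
    exact e2.trans (hcm K hK)
  have g2 : q * (bi * (1 - ai)) ≤ L := by
    have e1 : bi * (1 - ai) ≤ L * m := by
      calc bi * (1 - ai) ≤ (L * wi) * (1 - ai) := mul_le_mul_of_nonneg_right hbi (by linarith)
        _ = L * (wi * (1 - ai)) := by ring
        _ ≤ L * m := mul_le_mul_of_nonneg_left hI2 (by linarith)
    have e2 : q * (bi * (1 - ai)) ≤ q * (L * m) := mul_le_mul_of_nonneg_left e1 hq.le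
    exact e2.trans (hcm L hL)
  have g3 : ai + bi - 2 * (ai * bi) ≤ 7 / 16 := by
    have e1 : q * (ai + bi - 2 * (ai * bi)) ≤ q * (7 / 16) := by
      have f1 : q * (ai + bi - 2 * (ai * bi)) = q * (ai * (1 - bi)) + q * (bi * (1 - ai)) := by
        ring
      linarith
    exact le_of_mul_le_mul_left e1 hq
  have g4 : ai * bi ≤ 11 / 100 := by
    by_contra hcon
    push Not at hcon
    obtain ⟨σ, hσ⟩ : ∃ σ, σ = ai + bi := ⟨_, rfl⟩
    have e1 : 4 * (ai * bi) ≤ σ ^ 2 := by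
      have f1 : σ ^ 2 - 4 * (ai * bi) = (ai - bi) ^ 2 := by rw [hσ]; ring
      have f2 : 0 ≤ (ai - bi) ^ 2 := sq_nonneg _
      linarith
    rw [← hσ] at g3
    have hσ0 : 0 < σ := by linarith
    have hσ1 : σ ≤ 1 := by linarith
    have e2 : 66 / 100 < σ := by
      by_contra h
      push Not at h
      have f1 : σ ^ 2 ≤ (66 / 100) ^ 2 := pow_le_pow_left₀ hσ0.le h 2
      norm_num at f1
      linarith
    have e3 : 0 ≤ (σ - 66 / 100) * (2 - (σ + 66 / 100)) :=
      mul_nonneg (by linarith) (by linarith)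
    have e4 : (σ - 66 / 100) * (2 - (σ + 66 / 100)) = 2 * σ - σ ^ 2 - 2 * (66 / 100) +
      (66 / 100) ^ 2 := by ring
    norm_num at e4
    linarith
  have g5 : q * bi ≤ L + q * (11 / 100) := by
    have f1 : q * (ai * bi) ≤ q * (11 / 100) := mul_le_mul_of_nonneg_left g4 hq.le
    have f2 : q * (bi * (1 - ai)) = q * bi - q * (ai * bi) := by ring
    linarith
  -- conclusion
  have hqr : q * r < K := by
    have hrpos : 0 < r := by linarith
    have e1 : (q * r) * zj ≤ (q * r) * (K * Z11) :=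
      mul_le_mul_of_nonneg_left hz (by positivity)
    have e2 : (q * r) * (K * Z11) ≤ K * m := by
      have f1 : K * (q * (r * Z11)) ≤ K * m := mul_le_mul_of_nonneg_left hrz (by linarith)
      have f2 : (q * r) * (K * Z11) = K * (q * (r * Z11)) := by ring
      linarith
    have e3 : K * m < K * zj := mul_lt_mul_of_pos_left hzm (by linarith)
    have e4 : (q * r) * zj < K * zj := by linarith
    exact lt_of_mul_lt_mul_right e4 hzj.le
  have h1 : q * (1 - bj - bi) ≤ q * r := mul_le_mul_of_nonneg_left hr hq.le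
  have h2 : q * bj ≤ q * (3 / 7) := mul_le_mul_of_nonneg_left hbj37 hq.le
  have h3 : q * (1 - bj - bi) = q - q * bj - q * bi := by ring
  linarith

end Wp

theorem tN_twin (Q : ℕ) (h1 : 7 ≤ Q) (h2 : Q ≤ 10) : N_twin Q := by
  intro m k l K L aj bj zj wj ai bi zi wi p r Z11 h _ hz hrz
  obtain ⟨hm, hm0, hk, hl, hkl, hK, hL, hKL, haj0, hbj0, hai0, hbi0, haj2, hbj2, hai2,
    hbi2, haj, hbj, hai, hbi, hJ1, hJ2, hJ3, hI1, hI2, hp, hr⟩ := h
  have hk' : (1 : ℝ) ≤ k := by exact_mod_cast hk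
  have hl' : (1 : ℝ) ≤ l := by exact_mod_cast hl
  have hK' : (1 : ℝ) ≤ K := by exact_mod_cast hK
  have hL' : (1 : ℝ) ≤ L := by exact_mod_cast hL
  have hkl' : (k : ℝ) + l ≤ Q := by exact_mod_cast hkl
  have hKL' : (K : ℝ) + L ≤ Q := by exact_mod_cast hKL
  have hqb : 0 < (qb Q : ℝ) ∧ 16 * (Q : ℝ) ≤ 7 * qb Q ∧ 7 * (Q : ℝ) ≤ 3 * qb Q + 1 := by
    interval_cases Q <;> norm_num [qb]
  have hQ2 : (2 : ℝ) ≤ Q := by exact_mod_cast (by omega : 2 ≤ Q)
  exact Wp.key hqb.1 hQ2 hqb.2.1 hqb.2.2 hm hm0 hk' hl' hkl' hK' hL' hKL' haj0 hbj0 hai0 hbi0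
    haj2 hbj2 hai2 hbi2 haj hbj hai hbi hJ1 hJ2 hJ3 hI1 hI2 hr hz hrz

end R745CD
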